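import Mathlib

set_option autoImplicit false

/-!
# A sequence of primes
-/

namespace Pool.Agent.TH922.NL

lemma exists_prime (p : ℕ) (hp : p.Prime) (hp2 : p ≠ 2) (j B : ℕ) :
    ∃ l : ℕ, l.Prime ∧ B < l ∧ 2 ^ j ∣ l - 1 ∧ ¬ IsSquare ((p : ℕ) : ZMod l) := by
  haveI : Fact p.Prime := ⟨hp⟩
  obtain ⟨c, hc⟩ : ∃ c : ZMod p, ¬ IsSquare c :=
    FiniteField.exists_nonsquare (by rw [ringChar.eq (ZMod p) p]; exact hp2)
  have hcop : Nat.Coprime (2 ^ (j + 2)) p := by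
    apply Nat.Coprime.pow_left
    exact (Nat.coprime_primes Nat.prime_two hp).2 (Ne.symm hp2)
  obtain ⟨a, ha1, ha2⟩ := Nat.chineseRemainder hcop 1 c.val
  have hc0 : c ≠ 0 := by
    rintro rfl
    exact hc ⟨0, by simp⟩
  have hac : (a : ZMod p) = c := by
    have := (ZMod.natCast_eq_natCast_iff a c.val p).2 ha2
    rw [this, ZMod.natCast_val, ZMod.cast_id]
  have hap : a.Coprime p := by
    rw [Nat.coprime_comm, hp.coprime_iff_not_dvd]
    intro h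
    apply hc0
    rw [← hac]
    exact (ZMod.natCast_eq_zero_iff a p).2 h
  have ha4 : a.Coprime (2 ^ (j + 2)) := by
    have : Nat.gcd a (2 ^ (j + 2)) = Nat.gcd 1 (2 ^ (j + 2)) := ha1.gcd_eq
    rw [Nat.coprime_iff_gcd_eq_one, this, Nat.gcd_one_left]
  obtain ⟨l, hlB, hlp, hl⟩ := Nat.forall_exists_prime_gt_and_modEq (max B 1)
    (q := 2 ^ (j + 2) * p) (a := a) (by positivity [hp.pos]) (Nat.Coprime.mul_right ha4 hap)
  haveI : Fact l.Prime := ⟨hlp⟩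
  have h1 : l ≡ 1 [MOD 2 ^ (j + 2)] := (Nat.ModEq.of_mul_right p hl).trans ha1
  have h2 : l ≡ a [MOD p] := Nat.ModEq.of_mul_left _ hl
  have h3 : 2 ^ (j + 2) ∣ l - 1 := (Nat.modEq_iff_dvd' hlp.one_lt.le).1 h1.symm
  refine ⟨l, hlp, lt_of_le_of_lt (le_max_left _ _) hlB, (pow_dvd_pow 2 (by omega)).trans h3, ?_⟩
  have h4 : l % 4 = 1 := by
    have h5 : 4 ∣ l - 1 := (by exact ⟨2 ^ j, by ring⟩ : (4 : ℕ) ∣ 2 ^ (j + 2)).trans h3
    have := hlp.one_lt
    omega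
  rw [ZMod.exists_sq_eq_prime_iff_of_mod_four_eq_one h4 hp2]
  rw [(ZMod.natCast_eq_natCast_iff l a p).2 h2, hac]
  exact hc

/-- the enumeration of the odd primes, each taken infinitely often -/
def pp (j : ℕ) : ℕ := if (j.unpair.1).Prime ∧ j.unpair.1 ≠ 2 then j.unpair.1 else 3

lemma pp_prime (j : ℕ) : (pp j).Prime := by
  unfold pp
  split_ifs with h
  · exact h.1
  · exact Nat.prime_three

lemma pp_ne_two (j : ℕ) : pp j ≠ 2 := by
  unfold pp
  split_ifs with h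
  · exact h.2
  · norm_num

lemma pp_pair (p n : ℕ) (hp : p.Prime) (hp2 : p ≠ 2) : pp (Nat.pair p n) = p := by
  unfold pp
  rw [Nat.unpair_pair]
  simp [hp, hp2]

theorem exists_seq (C : ℕ → ℕ) : ∃ l : ℕ → ℕ, (∀ j, (l j).Prime) ∧ (∀ j, C j < l j) ∧
    StrictMono l ∧ (∀ j, 2 ^ j ∣ l j - 1) ∧ (∀ j, ¬ IsSquare ((pp j : ℕ) : ZMod (l j))) := by
  choose f hf using fun j B => exists_prime (pp j) (pp_prime j) (pp_ne_two j) j B
  let l : ℕ → ℕ := fun j => Nat.rec (f 0 (C 0)) (fun i x => f (i + 1) (max (C (i + 1)) x)) j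
  have h0 : l 0 = f 0 (C 0) := rfl
  have h1 : ∀ i, l (i + 1) = f (i + 1) (max (C (i + 1)) (l i)) := fun i => rfl
  refine ⟨l, ?_, ?_, ?_, ?_, ?_⟩
  · rintro (_ | j)
    · rw [h0]; exact (hf _ _).1
    · rw [h1]; exact (hf _ _).1
  · rintro (_ | j)
    · rw [h0]; exact (hf _ _).2.1
    · rw [h1]; exact lt_of_le_of_lt (le_max_left _ _) (hf _ _).2.1
  · apply strictMono_nat_of_lt_succ
    intro j
    rw [h1]; exact lt_of_le_of_lt (le_max_right _ _) (hf (j + 1) _).2.1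
  · rintro (_ | j)
    · rw [h0]; exact (hf _ _).2.2.1
    · rw [h1]; exact (hf _ _).2.2.1
  · rintro (_ | j)
    · rw [h0]; exact (hf _ _).2.2.2
    · rw [h1]; exact (hf _ _).2.2.2

/-- a power of a non-square which is a `2 ^ j`-th power has exponent divisible by `2 ^ j` -/
lemma dvd_of_pow_eq (l : ℕ) (hl : l.Prime) (j : ℕ) (hj : 2 ^ j ∣ l - 1) (p : ZMod l)
    (hp : ¬ IsSquare p) (m : ℕ) (u : ZMod l) (hu : u ≠ 0) (h : p ^ m = u ^ (2 ^ j)) :
    2 ^ j ∣ m := by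
  haveI : Fact l.Prime := ⟨hl⟩
  rcases Nat.eq_zero_or_pos m with rfl | hm
  · exact dvd_zero _
  rcases Nat.eq_zero_or_pos j with rfl | hj0
  · simp
  by_contra hcon
  obtain ⟨a, m', hm', rfl⟩ := Nat.exists_eq_two_pow_mul_odd hm.ne'
  have haj : a < j := by
    by_contra h'
    push Not at h'
    exact hcon (Dvd.dvd.mul_right (pow_dvd_pow 2 h') _)
  have hp0 : p ≠ 0 := by
    rintro rfl
    exact hp ⟨0, by simp⟩
  obtain ⟨t, ht⟩ := hj
  have hl2 : l ≠ 2 := by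
    rintro rfl
    have : 2 ∣ 2 ^ j := dvd_pow_self 2 hj0.ne'
    have h2 : 2 ∣ 1 := by
      have h3 : (2 : ℕ) ∣ 2 - 1 := ht ▸ this.mul_right t
      simpa using h3
    omega
  have h1 : p ^ (l / 2) = -1 := by
    rcases ZMod.pow_div_two_eq_neg_one_or_one l hp0 with h | h
    · exact absurd ((ZMod.euler_criterion l hp0).2 h) hp
    · exact h
  have hlt : l / 2 = 2 ^ (j - 1) * t := by
    have : l - 1 = 2 * (2 ^ (j - 1) * t) := by
      rw [ht, ← mul_assoc, ← pow_succ']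
      congr 2
      omega
    have := hl.one_lt
    omega
  have h2 : (p ^ (2 ^ a * m')) ^ (t * 2 ^ (j - 1 - a)) = (-1) ^ m' := by
    rw [← h1, ← pow_mul, ← pow_mul, hlt]
    congr 1
    have : 2 ^ (j - 1) = 2 ^ a * 2 ^ (j - 1 - a) := by
      rw [← pow_add]; congr 1; omega
    rw [this]
    ring
  rw [h, ← pow_mul] at h2
  have h3 : 2 ^ j * (t * 2 ^ (j - 1 - a)) = (l - 1) * 2 ^ (j - 1 - a) := by
    rw [ht]; ring
  rw [h3, pow_mul, ZMod.pow_card_sub_one_eq_one hu, one_pow, hm'.neg_one_pow] at h2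
  have h4 : (2 : ZMod l) = 0 := by
    linear_combination h2
  have h5 : ((2 : ℕ) : ZMod l) = 0 := by exact_mod_cast h4
  rw [ZMod.natCast_eq_zero_iff] at h5
  exact hl2 ((Nat.prime_dvd_prime_iff_eq hl Nat.prime_two).1 h5)

end Pool.Agent.TH922.NL
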