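import Mathlib
import Pool.Agent.TH922.NL.Seq

set_option autoImplicit false

/-!
# The tower of abelian fields
-/

namespace Pool.Agent.TH922.NL

open Module IntermediateField

/-- the algebraic numbers -/
abbrev Qb : Type := AlgebraicClosure ℚ

instance isAlgClosure_qb : IsAlgClosure ℚ Qb where
  isAlgClosed := inferInstance
  isAlgebraic := AlgebraicClosure.isAlgebraic ℚ

/-- the data: a sequence of primes with compatible roots of unity -/
structure Data where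
  l : ℕ → ℕ
  hl : ∀ j, (l j).Prime
  mono : StrictMono l
  dvd : ∀ j, 2 ^ j ∣ l j - 1
  nsq : ∀ j, ¬ IsSquare ((pp j : ℕ) : ZMod (l j))
  ζ : ℕ → Qb
  hζ : ∀ j, IsPrimitiveRoot (ζ j) (l j)

namespace Data

variable (T : Data)

instance (j : ℕ) : NeZero (T.l j) := ⟨(T.hl j).ne_zero⟩

instance (j : ℕ) : Fact (T.l j).Prime := ⟨T.hl j⟩

/-- the cyclotomic character modulo `l i` -/
noncomputable def χ (i : ℕ) : (Qb ≃ₐ[ℚ] Qb) →* (ZMod (T.l i))ˣ := (T.hζ i).autToPow ℚ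

lemma χ_spec (i : ℕ) (σ : Qb ≃ₐ[ℚ] Qb) : T.ζ i ^ ((T.χ i σ : ZMod (T.l i))).val = σ (T.ζ i) :=
  (T.hζ i).autToPow_spec ℚ σ

lemma χ_ext (i : ℕ) (σ τ : Qb ≃ₐ[ℚ] Qb) (h : σ (T.ζ i) = τ (T.ζ i)) : T.χ i σ = T.χ i τ := by
  rw [← T.χ_spec, ← T.χ_spec] at h
  apply Units.ext
  apply ZMod.val_injective
  exact (T.hζ i).pow_inj (ZMod.val_lt _) (ZMod.val_lt _) h

/-- the automorphisms whose cyclotomic characters modulo `l i` are `2 ^ i`-th powers, `i < j` -/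
noncomputable def S (j : ℕ) : Subgroup (Qb ≃ₐ[ℚ] Qb) :=
  ⨅ i : Fin j, ((powMonoidHom (2 ^ (i : ℕ)) : (ZMod (T.l i))ˣ →* (ZMod (T.l i))ˣ).range).comap
    (T.χ i)

lemma mem_S (j : ℕ) (σ : Qb ≃ₐ[ℚ] Qb) :
    σ ∈ T.S j ↔ ∀ i < j, ∃ u : (ZMod (T.l i))ˣ, u ^ (2 ^ i) = T.χ i σ := by
  unfold S
  rw [Subgroup.mem_iInf]
  constructor
  · intro h i hi
    exact h ⟨i, hi⟩
  · intro h i
    exact h i i.2

lemma S_anti : Antitone T.S := by
  intro i j hij σ hσ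
  rw [mem_S] at hσ ⊢
  exact fun k hk => hσ k (hk.trans_le hij)

lemma S_normal (j : ℕ) (σ τ : Qb ≃ₐ[ℚ] Qb) (h : σ ∈ T.S j) : τ * σ * τ⁻¹ ∈ T.S j := by
  rw [mem_S] at h ⊢
  intro i hi
  obtain ⟨u, hu⟩ := h i hi
  refine ⟨u, ?_⟩
  rw [hu, map_mul, map_mul, map_inv, mul_comm (T.χ i τ), mul_assoc, mul_inv_cancel, mul_one]

/-- the fields of the tower -/
noncomputable def K (j : ℕ) : IntermediateField ℚ Qb := IntermediateField.fixedField (T.S j)

lemma mem_K (j : ℕ) (x : Qb) : x ∈ T.K j ↔ ∀ σ ∈ T.S j, σ x = x := by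
  unfold K
  rw [IntermediateField.mem_fixedField_iff]

lemma K_mono : Monotone T.K := by
  intro i j hij x hx
  rw [mem_K] at hx ⊢
  exact fun σ hσ => hx σ (T.S_anti hij hσ)

lemma map_mem_K (j : ℕ) (x : Qb) (hx : x ∈ T.K j) (τ : Qb ≃ₐ[ℚ] Qb) : τ x ∈ T.K j := by
  rw [mem_K] at hx ⊢
  intro σ hσ
  have h1 := hx _ (T.S_normal j σ τ⁻¹ hσ)
  rw [inv_inv] at h1
  have h2 : τ ((τ⁻¹ * σ * τ) x) = τ x := by rw [h1]
  rw [AlgEquiv.mul_apply, AlgEquiv.mul_apply] at h2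
  have h3 : ∀ y, τ (τ⁻¹ y) = y := fun y => by
    rw [← AlgEquiv.mul_apply, mul_inv_cancel, AlgEquiv.one_apply]
  rwa [h3] at h2

lemma index_le (j : ℕ) : (T.S j).index ≤ ∏ i : Fin j, 2 ^ (i : ℕ) ∧ (T.S j).index ≠ 0 := by
  have key : ∀ i : Fin j, (((powMonoidHom (2 ^ (i : ℕ)) :
      (ZMod (T.l i))ˣ →* (ZMod (T.l i))ˣ).range).comap (T.χ i)).index ≤ 2 ^ (i : ℕ) ∧
      (((powMonoidHom (2 ^ (i : ℕ)) :
      (ZMod (T.l i))ˣ →* (ZMod (T.l i))ˣ).range).comap (T.χ i)).index ≠ 0 := by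
    intro i
    have h0 : ((powMonoidHom (2 ^ (i : ℕ)) : (ZMod (T.l i))ˣ →* (ZMod (T.l i))ˣ).range).index ≠ 0 :=
      Subgroup.index_ne_zero_of_finite
    rw [Subgroup.index_comap]
    constructor
    · refine (Nat.le_of_dvd (Nat.pos_of_ne_zero h0) (Subgroup.relIndex_dvd_index_of_normal _ _)).trans ?_
      rw [IsCyclic.index_powMonoidHom_range]
      exact Nat.gcd_le_right _ (by positivity)
    · exact fun h => h0 (Nat.eq_zero_of_zero_dvd (h ▸ Subgroup.relIndex_dvd_index_of_normal _ _))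
  constructor
  · refine (Subgroup.index_iInf_le _).trans ?_
    exact Finset.prod_le_prod' fun i _ => (key i).1
  · exact Subgroup.index_iInf_ne_zero fun i => (key i).2

/-- the bound for the degree -/
def D (j : ℕ) : ℕ := ∏ i : Fin j, 2 ^ (i : ℕ)

lemma qb_int (x : Qb) : IsIntegral ℚ x :=
  ((AlgebraicClosure.isAlgebraic ℚ).isAlgebraic x).isIntegral

lemma degree_le (j : ℕ) (x : Qb) (hx : x ∈ T.K j) : (minpoly ℚ x).natDegree ≤ D j := by
  have h1 : (minpoly ℚ x).rootSet Qb = MulAction.orbit (Qb ≃ₐ[ℚ] Qb) x := by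
    ext y
    rw [← isConjRoot_iff_mem_minpoly_rootSet (qb_int x), isConjRoot_iff_exists_algEquiv]
    constructor
    · rintro ⟨σ, hσ⟩
      exact ⟨σ⁻¹, by
        show σ⁻¹ x = y
        rw [← hσ, ← AlgEquiv.mul_apply, inv_mul_cancel, AlgEquiv.one_apply]⟩
    · rintro ⟨σ, hσ⟩
      refine ⟨σ⁻¹, ?_⟩
      have : σ x = y := hσ
      rw [← this, ← AlgEquiv.mul_apply, inv_mul_cancel, AlgEquiv.one_apply]
  have h2 : Nat.card ((minpoly ℚ x).rootSet Qb) = (minpoly ℚ x).natDegree := by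
    rw [Nat.card_eq_fintype_card]
    exact Polynomial.card_rootSet_eq_natDegree (minpoly.irreducible (qb_int x)).separable
      (IsAlgClosed.splits _)
  rw [← h2, Nat.card_coe_set_eq, h1, ← MulAction.index_stabilizer]
  obtain ⟨h3, h4⟩ := T.index_le j
  refine le_trans ?_ h3
  apply Nat.le_of_dvd (Nat.pos_of_ne_zero h4)
  apply Subgroup.index_dvd_of_le
  intro σ hσ
  exact (T.mem_K j x).1 hx σ hσ

/-- the conductor -/
def N (j : ℕ) : ℕ := ∏ i ∈ Finset.range j, T.l i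

/-- the primitive root of unity of order `N j` -/
noncomputable def Z (j : ℕ) : Qb := ∏ i ∈ Finset.range j, T.ζ i

lemma N_succ (j : ℕ) : T.N (j + 1) = T.N j * T.l j := Finset.prod_range_succ _ _

lemma Z_succ (j : ℕ) : T.Z (j + 1) = T.Z j * T.ζ j := Finset.prod_range_succ _ _

lemma N_pos (j : ℕ) : 0 < T.N j := Finset.prod_pos fun i _ => (T.hl i).pos

lemma coprime_N (j k : ℕ) (h : j ≤ k) : Nat.Coprime (T.N j) (T.l k) := by
  unfold N
  apply Nat.Coprime.prod_left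
  intro i hi
  rw [Nat.coprime_primes (T.hl i) (T.hl k)]
  exact (T.mono ((Finset.mem_range.1 hi).trans_le h)).ne

lemma hZ (j : ℕ) : IsPrimitiveRoot (T.Z j) (T.N j) := by
  induction j with
  | zero => simp [Z, N]
  | succ j ih =>
    rw [Z_succ, N_succ]
    have h1 := (IsPrimitiveRoot.eq_orderOf ih)
    have h2 := (IsPrimitiveRoot.eq_orderOf (T.hζ j))
    have h3 := (Commute.all (T.Z j) (T.ζ j)).orderOf_mul_eq_mul_orderOf_of_coprime
      (by rw [← h1, ← h2]; exact T.coprime_N j j le_rfl)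
    rw [h1, h2, ← h3]
    exact IsPrimitiveRoot.orderOf _

lemma ζ_mem (i j : ℕ) (h : i < j) : ∃ k : ℕ, T.ζ i = T.Z j ^ k := by
  have h0 : T.ζ i ^ (T.N j) = 1 := by
    obtain ⟨c, hc⟩ : T.l i ∣ T.N j := Finset.dvd_prod_of_mem _ (Finset.mem_range.2 h)
    rw [hc, pow_mul, (T.hζ i).pow_eq_one, one_pow]
  have : NeZero (T.N j) := ⟨(T.N_pos j).ne'⟩
  obtain ⟨k, _, hk⟩ := (T.hZ j).eq_pow_of_pow_eq_one h0
  exact ⟨k, hk.symm⟩

lemma exists_aut (j u : ℕ) (hu : u.Coprime (T.N j)) : ∃ τ : Qb ≃ₐ[ℚ] Qb, τ (T.Z j) = T.Z j ^ u := by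
  have h1 : IsConjRoot ℚ (T.Z j) (T.Z j ^ u) := by
    rw [isConjRoot_def]
    rw [← Polynomial.cyclotomic_eq_minpoly_rat (T.hZ j) (T.N_pos j),
      ← Polynomial.cyclotomic_eq_minpoly_rat ((T.hZ j).pow_of_coprime u hu) (T.N_pos j)]
  rw [isConjRoot_iff_exists_algEquiv] at h1
  obtain ⟨σ, hσ⟩ := h1
  refine ⟨σ⁻¹, ?_⟩
  have h2 : σ⁻¹ (σ (T.Z j ^ u)) = T.Z j ^ u := by
    rw [← AlgEquiv.mul_apply, inv_mul_cancel, AlgEquiv.one_apply]
  rwa [hσ] at h2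

/-- an element which is new in `K (j + 1)` is moved by an automorphism which fixes `Z j` -/
lemma exists_moving (j : ℕ) (x : Qb) (hx : x ∈ T.K (j + 1)) (hxn : x ∉ T.K j) :
    ∃ σ : Qb ≃ₐ[ℚ] Qb, σ (T.Z j) = T.Z j ∧ σ x ≠ x := by
  rw [mem_K] at hxn
  push Not at hxn
  obtain ⟨σ, hσ, hσx⟩ := hxn
  -- the action of `σ` on `Z j`
  have : NeZero (T.N j) := ⟨(T.N_pos j).ne'⟩
  obtain ⟨a, _, ha⟩ := (T.hZ j).eq_pow_of_pow_eq_one (ξ := σ (T.Z j)) (by
    rw [← map_pow, (T.hZ j).pow_eq_one, map_one])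
  have hacop : a.Coprime (T.N j) := by
    have : IsPrimitiveRoot (T.Z j ^ a) (T.N j) := by
      rw [ha]; exact (T.hZ j).map_of_injective σ.injective
    exact ((T.hZ j).pow_iff_coprime (T.N_pos j) a).1 this
  obtain ⟨u, hu1, hu2⟩ := Nat.chineseRemainder (T.coprime_N j j le_rfl) a 1
  have hucop : u.Coprime (T.N (j + 1)) := by
    rw [N_succ]
    apply Nat.Coprime.mul_right
    · have : Nat.gcd u (T.N j) = Nat.gcd a (T.N j) := hu1.gcd_eq
      rw [Nat.coprime_iff_gcd_eq_one, this]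
      exact hacop
    · have : Nat.gcd u (T.l j) = Nat.gcd 1 (T.l j) := hu2.gcd_eq
      rw [Nat.coprime_iff_gcd_eq_one, this, Nat.gcd_one_left]
  obtain ⟨τ, hτ⟩ := T.exists_aut (j + 1) u hucop
  have hpow : ∀ (z : Qb) (n m k : ℕ), z ^ n = 1 → m ≡ k [MOD n] → z ^ m = z ^ k := by
    intro z n m k hz hmk
    rw [← Nat.mod_add_div m n, ← Nat.mod_add_div k n, pow_add, pow_add, pow_mul, pow_mul, hz,
      one_pow, one_pow, hmk]
  have hτi : ∀ i < j + 1, τ (T.ζ i) = T.ζ i ^ u := by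
    intro i hi
    obtain ⟨k, hk⟩ := T.ζ_mem i (j + 1) hi
    rw [hk, map_pow, hτ, ← pow_mul, ← pow_mul, mul_comm]
  have hτσ : ∀ i < j, τ (T.ζ i) = σ (T.ζ i) := by
    intro i hi
    rw [hτi i (hi.trans (Nat.lt_succ_self j))]
    obtain ⟨k, hk⟩ := T.ζ_mem i j hi
    rw [hk, map_pow, ← ha, ← pow_mul, ← pow_mul]
    apply hpow _ (T.N j) _ _ (T.hZ j).pow_eq_one
    rw [mul_comm a k]
    exact Nat.ModEq.mul_left k hu1
  have hτj : τ (T.ζ j) = T.ζ j := by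
    rw [hτi j (Nat.lt_succ_self j), hpow _ (T.l j) u 1 (T.hζ j).pow_eq_one hu2, pow_one]
  have hτS : τ ∈ T.S (j + 1) := by
    rw [mem_S]
    intro i hi
    rcases Nat.lt_succ_iff_lt_or_eq.1 hi with h | h
    · obtain ⟨v, hv⟩ := (T.mem_S j σ).1 hσ i h
      exact ⟨v, by rw [hv]; exact (T.χ_ext i τ σ (hτσ i h)).symm⟩
    · subst h
      refine ⟨1, ?_⟩
      rw [one_pow, T.χ_ext i τ 1 (by rw [hτj]; rfl), map_one]
  have hτx : τ x = x := (T.mem_K (j + 1) x).1 hx τ hτS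
  have hinv : ∀ y, τ⁻¹ (τ y) = y := fun y => by
    rw [← AlgEquiv.mul_apply, inv_mul_cancel, AlgEquiv.one_apply]
  refine ⟨τ⁻¹ * σ, ?_, ?_⟩
  · rw [AlgEquiv.mul_apply]
    unfold Z
    rw [map_prod, map_prod]
    apply Finset.prod_congr rfl
    intro i hi
    rw [← hτσ i (Finset.mem_range.1 hi), hinv]
  · intro h
    apply hσx
    rw [AlgEquiv.mul_apply] at h
    have h2 := congrArg τ h
    rw [hτx, ← AlgEquiv.mul_apply, mul_inv_cancel, AlgEquiv.one_apply] at h2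
    exact h2

/-- `K j` lies in the cyclotomic field of conductor `N j` -/
lemma K_le (j : ℕ) : T.K j ≤ ℚ⟮T.Z j⟯ := by
  have h1 : (ℚ⟮T.Z j⟯).fixingSubgroup ≤ T.S j := by
    intro σ hσ
    rw [IntermediateField.mem_fixingSubgroup_iff] at hσ
    rw [mem_S]
    intro i hi
    refine ⟨1, ?_⟩
    rw [one_pow, T.χ_ext i σ 1 ?_, map_one]
    obtain ⟨k, hk⟩ := T.ζ_mem i j hi
    rw [hk, map_pow, hσ _ (IntermediateField.mem_adjoin_simple_self ℚ _)]
    rfl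
  have h2 : IntermediateField.fixedField (T.S j) ≤
      IntermediateField.fixedField (ℚ⟮T.Z j⟯).fixingSubgroup := by
    intro x hx
    rw [IntermediateField.mem_fixedField_iff] at hx ⊢
    exact fun σ hσ => hx σ (h1 hσ)
  rwa [InfiniteGalois.fixedField_fixingSubgroup] at h2

/-- the Galois correspondence for `S j` -/
lemma fixing_K (j : ℕ) (σ : Qb ≃ₐ[ℚ] Qb) (h : ∀ x ∈ T.K j, σ x = x) : σ ∈ T.S j := by
  have h1 : (ℚ⟮T.Z j⟯).fixingSubgroup ≤ T.S j := by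
    intro σ hσ
    rw [IntermediateField.mem_fixingSubgroup_iff] at hσ
    rw [mem_S]
    intro i hi
    refine ⟨1, ?_⟩
    rw [one_pow, T.χ_ext i σ 1 ?_, map_one]
    obtain ⟨k, hk⟩ := T.ζ_mem i j hi
    rw [hk, map_pow, hσ _ (IntermediateField.mem_adjoin_simple_self ℚ _)]
    rfl
  have hfd : FiniteDimensional ℚ ℚ⟮T.Z j⟯ := IntermediateField.adjoin.finiteDimensional (qb_int _)
  have h2 : IsOpen ((ℚ⟮T.Z j⟯).fixingSubgroup : Set (Qb ≃ₐ[ℚ] Qb)) :=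
    IntermediateField.fixingSubgroup_isOpen _
  have h3 : IsOpen (T.S j : Set (Qb ≃ₐ[ℚ] Qb)) := Subgroup.isOpen_mono h1 h2
  have h4 : IsClosed (T.S j : Set (Qb ≃ₐ[ℚ] Qb)) := (T.S j).isClosed_of_isOpen h3
  have h5 := InfiniteGalois.fixingSubgroup_fixedField (⟨T.S j, h4⟩ : ClosedSubgroup (Qb ≃ₐ[ℚ] Qb))
  have h6 : σ ∈ (IntermediateField.fixedField (T.S j)).fixingSubgroup := by
    rw [IntermediateField.mem_fixingSubgroup_iff]
    exact h
  have h7 : (IntermediateField.fixedField (T.S j)).fixingSubgroup = T.S j := h5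
  rwa [h7] at h6

/-- the union of the tower -/
noncomputable def F : IntermediateField ℚ Qb := ⨆ i, T.K i

lemma mem_F (x : Qb) : x ∈ T.F ↔ ∃ i, x ∈ T.K i := by
  unfold F
  rw [← SetLike.mem_coe, IntermediateField.coe_iSup_of_directed T.K_mono.directed_le,
    Set.mem_iUnion]
  rfl

end Data

end Pool.Agent.TH922.NL
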