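import Mathlib
import Pool.Agent.TH922.NL.Tower
import Pool.Agent.H58W.HtNorth

set_option autoImplicit false

/-!
# Elements which are new in a step of the tower have large height
-/

namespace Pool.Agent.TH922.NL

open Module IntermediateField Polynomial NumberField Height
open Pool.Agent.Helper259.AbsHt
open Pool.Agent.H58W (norm_embedding_le_mulHeight₁)

lemma height_data (D : ℕ) (B : ℝ) (α : Qb) (hdeg : (minpoly ℚ α).natDegree ≤ D)
    (hht : absLogHeight ![1, α] ≤ B) :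
    ∃ n : ℕ, n ≠ 0 ∧ (n : ℝ) ≤ Real.exp (max B 0 * D) ∧ IsIntegral ℤ ((n : Qb) * α) ∧
      ∀ φ : Qb →+* ℂ, ‖φ α‖ ≤ Real.exp (max B 0 * D) := by
  set M : ℝ := Real.exp (max B 0 * D) with hM
  let K := IntermediateField.adjoin ℚ {α}
  have hαint : IsIntegral ℚ α := Data.qb_int α
  have hK : NumberField K :=
    { to_charZero := inferInstance
      to_finiteDimensional := IntermediateField.adjoin.finiteDimensional hαint }
  let y : K := IntermediateField.AdjoinSimple.gen ℚ α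
  have hy : (y : Qb) = α := IntermediateField.AdjoinSimple.coe_gen ℚ α
  have hfr : finrank ℚ K = (minpoly ℚ α).natDegree := IntermediateField.adjoin.finrank hαint
  have hlog : logHeight₁ y ≤ max B 0 * D := by
    rw [logHeight₁_eq_logHeight, logHeight_swap]
    have h1 := val_eq K ![1, y]
    have e : (fun i => ((![1, y] i : K) : Qb)) = ![1, α] := by
      funext i
      fin_cases i
      · simp
      · simpa using hy
    rw [e] at h1
    have hpos := finrank_pos' K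
    rw [eq_div_iff hpos.ne'] at h1
    rw [← h1]
    have h2 : (finrank ℚ K : ℝ) ≤ D := by rw [hfr]; exact_mod_cast hdeg
    calc absLogHeight ![1, α] * finrank ℚ K ≤ max B 0 * finrank ℚ K :=
          mul_le_mul_of_nonneg_right (hht.trans (le_max_left _ _)) hpos.le
      _ ≤ max B 0 * D := mul_le_mul_of_nonneg_left h2 (le_max_right _ _)
  have hmul : mulHeight₁ y ≤ M := by
    rw [logHeight₁_eq_log_mulHeight₁] at hlog
    exact (Real.log_le_iff_le_exp (mulHeight₁_pos y)).mp hlog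
  obtain ⟨n, hn0, hn1, hn2⟩ := exists_nat_le_mulHeight₁ y
  refine ⟨n, hn0, hn1.trans hmul, ?_, fun φ => ?_⟩
  · have := hn2.map (algebraMap K Qb).toIntAlgHom
    rw [← hy]
    simpa using this
  · have h1 := norm_embedding_le_mulHeight₁ y (φ.comp (algebraMap K Qb))
    have h2 : (φ.comp (algebraMap K Qb)) y = φ α := by
      rw [RingHom.comp_apply]
      congr 1
    rw [h2] at h1
    exact h1.trans hmul

/-- the constant coefficient of the minimal polynomial of an algebraic integer with bounded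
conjugates -/
lemma coeff_zero_bound (D : ℕ) (R : ℝ) (hR : 1 ≤ R) (β : Qb) (hβ : IsIntegral ℤ β)
    (hdeg : (minpoly ℚ β).natDegree ≤ D) (h : ∀ φ : Qb →+* ℂ, ‖φ β‖ ≤ R) :
    |((minpoly ℤ β).coeff 0 : ℝ)| ≤ R ^ D := by
  have hmp : (minpoly ℤ β).map (algebraMap ℤ ℚ) = minpoly ℚ β :=
    (minpoly.isIntegrallyClosed_eq_field_fractions' ℚ hβ).symm
  set P : ℂ[X] := (minpoly ℤ β).map (Int.castRingHom ℂ) with hP
  have hPm : P.Monic := (minpoly.monic hβ).map _
  have hPsplit : P.Splits := IsAlgClosed.splits P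
  have hPdeg : P.natDegree = (minpoly ℤ β).natDegree := (minpoly.monic hβ).natDegree_map _
  have hdeg' : (minpoly ℤ β).natDegree ≤ D := by
    rw [← (minpoly.monic hβ).natDegree_map (algebraMap ℤ ℚ), hmp]
    exact hdeg
  have h1 : P.coeff 0 = (-1) ^ P.natDegree * P.roots.prod := by
    exact hPsplit.coeff_zero_eq_prod_roots_of_monic hPm
  have hroots : ∀ z ∈ P.roots, ‖z‖ ≤ R := by
    intro z hz
    have hz2 : z ∈ (minpoly ℚ β).rootSet ℂ := by
      rw [← hmp, mem_rootSet]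
      constructor
      · exact ((minpoly.monic hβ).map _).ne_zero
      · have hz3 := (mem_roots'.mp hz).2
        rw [IsRoot.def, eval_map] at hz3
        rw [aeval_map_algebraMap, aeval_def]
        exact hz3
    rw [← Algebra.IsAlgebraic.range_eval_eq_rootSet_minpoly ℂ β] at hz2
    obtain ⟨φ, hφ⟩ := hz2
    simp only at hφ
    rw [← hφ]
    exact h φ.toRingHom
  have h2 : ‖P.roots.prod‖ ≤ R ^ (Multiset.card P.roots) := by
    have : ∀ s : Multiset ℂ, (∀ z ∈ s, ‖z‖ ≤ R) → ‖s.prod‖ ≤ R ^ (Multiset.card s) := by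
      intro s
      induction s using Multiset.induction with
      | empty => intro _; simp
      | cons a s ih =>
        intro hs
        rw [Multiset.prod_cons, Multiset.card_cons, norm_mul, pow_succ']
        exact mul_le_mul (hs a (Multiset.mem_cons_self a s))
          (ih fun z hz => hs z (Multiset.mem_cons_of_mem hz)) (norm_nonneg _) (by linarith)
    exact this _ hroots
  have h3 : ‖P.coeff 0‖ ≤ R ^ D := by
    rw [h1, norm_mul, norm_pow, norm_neg, norm_one, one_pow, one_mul]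
    refine h2.trans (pow_le_pow_right₀ hR ?_)
    exact (card_roots' P).trans (hPdeg.le.trans hdeg')
  rw [hP, coeff_map, eq_intCast, Complex.norm_intCast] at h3
  exact h3

namespace Data

variable (T : Data)

/-- The key congruence: an automorphism which fixes `Z j` is trivial modulo primes over `l j` on
the integers of the cyclotomic field of conductor `N (j + 1)`. -/
lemma congr (j : ℕ) (k : Type) [Field k] [CharP k (T.l j)]
    (ψ : integralClosure ℤ Qb →+* k) (σ : Qb ≃ₐ[ℚ] Qb) (hσ : σ (T.Z j) = T.Z j)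
    (y : Qb) (hy : y ∈ integralClosure ℤ Qb) (hyK : y ∈ ℚ⟮T.Z (j + 1)⟯)
    (hy' : σ y ∈ integralClosure ℤ Qb) : ψ ⟨σ y, hy'⟩ = ψ ⟨y, hy⟩ := by
  have hNpos := T.N_pos (j + 1)
  have : NeZero (T.N (j + 1)) := ⟨hNpos.ne'⟩
  have hprim := T.hZ (j + 1)
  have hcyc : IsCyclotomicExtension {T.N (j + 1)} ℚ ℚ⟮T.Z (j + 1)⟯ :=
    hprim.intermediateField_adjoin_isCyclotomicExtension ℚ
  have hprim' : IsPrimitiveRoot (AdjoinSimple.gen ℚ (T.Z (j + 1))) (T.N (j + 1)) :=
    IsPrimitiveRoot.coe_submonoidClass_iff.mp hprim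
  have hic := IsCyclotomicExtension.Rat.isIntegralClosure_adjoin_singleton hprim'
  -- `y` is a polynomial in `Z (j + 1)` with integral coefficients
  have h1 : IsIntegral ℤ (⟨y, hyK⟩ : ℚ⟮T.Z (j + 1)⟯) := by
    rw [← isIntegral_algHom_iff (IsScalarTower.toAlgHom ℤ ℚ⟮T.Z (j + 1)⟯ Qb)
      (algebraMap ℚ⟮T.Z (j + 1)⟯ Qb).injective]
    exact hy
  obtain ⟨w, hw⟩ := (hic.isIntegral_iff).1 h1
  obtain ⟨q, hq⟩ : ∃ q : ℤ[X], aeval (AdjoinSimple.gen ℚ (T.Z (j + 1))) q =
      (⟨y, hyK⟩ : ℚ⟮T.Z (j + 1)⟯) := by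
    obtain ⟨w, hw1⟩ := w
    have hw2 := hw1
    rw [Algebra.adjoin_singleton_eq_range_aeval] at hw2
    obtain ⟨q, hq⟩ := hw2
    refine ⟨q, ?_⟩
    rw [← hw]
    exact hq
  have hq2 : aeval (T.Z (j + 1)) q = y := by
    have h2 := congrArg (fun t : ℚ⟮T.Z (j + 1)⟯ => (t : Qb)) hq
    simp only at h2
    rw [← h2]
    have h3 := Polynomial.aeval_algebraMap_apply Qb (AdjoinSimple.gen ℚ (T.Z (j + 1))) q
    rw [AdjoinSimple.algebraMap_gen] at h3
    exact h3
  have hZint : T.Z (j + 1) ∈ integralClosure ℤ Qb := hprim.isIntegral hNpos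
  have hσZint : σ (T.Z (j + 1)) ∈ integralClosure ℤ Qb := by
    have : IsPrimitiveRoot (σ (T.Z (j + 1))) (T.N (j + 1)) := hprim.map_of_injective σ.injective
    exact this.isIntegral hNpos
  have e1 : (⟨y, hy⟩ : integralClosure ℤ Qb) =
      aeval (⟨T.Z (j + 1), hZint⟩ : integralClosure ℤ Qb) q := by
    apply Subtype.ext
    have h3 := Polynomial.aeval_algebraMap_apply Qb
      (⟨T.Z (j + 1), hZint⟩ : integralClosure ℤ Qb) q
    exact hq2.symm.trans h3
  have e2 : (⟨σ y, hy'⟩ : integralClosure ℤ Qb) =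
      aeval (⟨σ (T.Z (j + 1)), hσZint⟩ : integralClosure ℤ Qb) q := by
    apply Subtype.ext
    have h3 := Polynomial.aeval_algebraMap_apply Qb
      (⟨σ (T.Z (j + 1)), hσZint⟩ : integralClosure ℤ Qb) q
    have h4 : σ y = aeval (σ (T.Z (j + 1))) q := by
      rw [← hq2]
      exact (Polynomial.aeval_algHom_apply ((σ : Qb →ₐ[ℚ] Qb).restrictScalars ℤ)
        (T.Z (j + 1)) q).symm
    show σ y = _
    rw [h4]
    exact h3
  have hζint : ∀ τ : Qb ≃ₐ[ℚ] Qb, τ (T.ζ j) ∈ integralClosure ℤ Qb := fun τ =>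
    ((T.hζ j).map_of_injective τ.injective).isIntegral (T.hl j).pos
  have hζint1 : T.ζ j ∈ integralClosure ℤ Qb := (T.hζ j).isIntegral (T.hl j).pos
  have hZjint : T.Z j ∈ integralClosure ℤ Qb := (T.hZ j).isIntegral (T.N_pos j)
  have hone : ∀ (t : Qb) (ht : t ∈ integralClosure ℤ Qb), t ^ (T.l j) = 1 →
      ψ ⟨t, ht⟩ = 1 := by
    intro t ht htl
    have h5 : ψ ⟨t, ht⟩ ^ (T.l j) = 1 := by
      rw [← map_pow, ← map_one ψ]
      congr 1
      exact Subtype.ext htl
    have h6 : (ψ ⟨t, ht⟩ - 1) ^ (T.l j) = 0 := by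
      rw [sub_pow_char, h5, one_pow, sub_self]
    have h7 := pow_eq_zero_iff (T.hl j).ne_zero |>.1 h6
    exact sub_eq_zero.1 h7
  have hmul : ∀ (s t u : Qb) (hs : s ∈ integralClosure ℤ Qb) (ht : t ∈ integralClosure ℤ Qb)
      (hu : u ∈ integralClosure ℤ Qb), u = s * t → ψ ⟨u, hu⟩ = ψ ⟨s, hs⟩ * ψ ⟨t, ht⟩ := by
    intro s t u hs ht hu hust
    rw [← map_mul]
    congr 1
    exact Subtype.ext hust
  have hone' : (T.ζ j) ^ (T.l j) = 1 := (T.hζ j).pow_eq_one
  have e3 : ψ ⟨σ (T.Z (j + 1)), hσZint⟩ = ψ ⟨T.Z (j + 1), hZint⟩ := by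
    have h8 : σ (T.Z (j + 1)) = T.Z j * σ (T.ζ j) := by rw [T.Z_succ, map_mul, hσ]
    have h9 : T.Z (j + 1) = T.Z j * T.ζ j := T.Z_succ j
    rw [hmul _ _ _ hZjint (hζint σ) hσZint h8, hmul _ _ _ hZjint hζint1 hZint h9,
      hone _ (hζint σ) (by rw [← map_pow, hone', map_one]), hone _ hζint1 hone']
  rw [e1, e2]
  have h12 : ∀ s : integralClosure ℤ Qb, ψ (aeval s q) = eval₂ (Int.castRingHom k) (ψ s) q := by
    intro s
    rw [aeval_def, hom_eval₂]
    congr 1
    exact RingHom.ext_int _ _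
  rw [h12, h12, e3]

/-- the lower bound for the height -/
theorem l_le (j : ℕ) (x : Qb) (hx : x ∈ T.K (j + 1)) (hxn : x ∉ T.K j) (B : ℝ)
    (hB : absLogHeight ![1, x] ≤ B) :
    (T.l j : ℝ) ≤ (2 * Real.exp (max B 0 * D (j + 1)) ^ 2) ^ D (j + 1) := by
  obtain ⟨σ, hσ, hσx⟩ := T.exists_moving j x hx hxn
  obtain ⟨n, hn0, hnM, hnx, hφ⟩ := height_data (D (j + 1)) B x (T.degree_le (j + 1) x hx) hB
  set M : ℝ := Real.exp (max B 0 * D (j + 1)) with hM
  have hM1 : 1 ≤ M := Real.one_le_exp (by positivity)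
  have hn0' : (n : Qb) ≠ 0 := by exact_mod_cast hn0
  set y : Qb := (n : Qb) * x with hy
  have hyσ : σ y = (n : Qb) * σ x := by rw [hy, map_mul, map_natCast]
  have hσy : IsIntegral ℤ (σ y) := hnx.map (σ : Qb →+* Qb).toIntAlgHom
  set β : Qb := σ y - y with hβ
  have hβ0 : β ≠ 0 := by
    rw [hβ, hyσ, hy, ← mul_sub]
    exact mul_ne_zero hn0' (sub_ne_zero.2 hσx)
  have hβint : IsIntegral ℤ β := hσy.sub hnx
  have hyK : y ∈ T.K (j + 1) := mul_mem (IntermediateField.natCast_mem _ n) hx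
  have hβK : β ∈ T.K (j + 1) := sub_mem (T.map_mem_K (j + 1) y hyK σ) hyK
  have hβφ : ∀ φ : Qb →+* ℂ, ‖φ β‖ ≤ 2 * M ^ 2 := by
    intro φ
    rw [hβ, hyσ, hy, map_sub, map_mul, map_mul, map_natCast]
    have h1 : ‖(n : ℂ) * φ (σ x)‖ ≤ M * M := by
      rw [norm_mul, Complex.norm_natCast]
      exact mul_le_mul hnM (hφ (φ.comp (σ : Qb →+* Qb))) (norm_nonneg _) (by linarith)
    have h2 : ‖(n : ℂ) * φ x‖ ≤ M * M := by
      rw [norm_mul, Complex.norm_natCast]
      exact mul_le_mul hnM (hφ φ) (norm_nonneg _) (by linarith)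
    calc ‖(n : ℂ) * φ (σ x) - (n : ℂ) * φ x‖ ≤ ‖(n : ℂ) * φ (σ x)‖ + ‖(n : ℂ) * φ x‖ :=
          norm_sub_le _ _
      _ ≤ M * M + M * M := add_le_add h1 h2
      _ = 2 * M ^ 2 := by ring
  have hbound := coeff_zero_bound (D (j + 1)) (2 * M ^ 2) (by nlinarith) β hβint
    (T.degree_le (j + 1) β hβK) hβφ
  refine le_trans ?_ hbound
  -- divisibility of the constant coefficient
  have hc0 : (minpoly ℤ β).coeff 0 ≠ 0 := by
    have hmp : (minpoly ℤ β).map (algebraMap ℤ ℚ) = minpoly ℚ β :=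
      (minpoly.isIntegrallyClosed_eq_field_fractions' ℚ hβint).symm
    intro h
    apply minpoly.coeff_zero_ne_zero (qb_int β) hβ0
    rw [← hmp, coeff_map, h, map_zero]
  have hdvd : (T.l j : ℤ) ∣ (minpoly ℤ β).coeff 0 := by
    -- a maximal ideal over `l j`
    let O := integralClosure ℤ Qb
    have hnu : ¬ IsUnit ((T.l j : ℕ) : O) := by
      intro hu
      obtain ⟨v, hv⟩ := hu.exists_right_inv
      have h1 : ((T.l j : ℕ) : Qb) * (v : Qb) = 1 := by
        have := congrArg (fun t : O => (t : Qb)) hv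
        simpa using this
      have h2 : IsIntegral ℤ (algebraMap ℚ Qb ((T.l j : ℚ)⁻¹)) := by
        have h3 : algebraMap ℚ Qb ((T.l j : ℚ)⁻¹) = (v : Qb) := by
          rw [map_inv₀, map_natCast]
          exact (eq_inv_of_mul_eq_one_right h1).symm
        rw [h3]
        exact v.2
      have h3 : IsIntegral ℤ ((T.l j : ℚ)⁻¹) :=
        (isIntegral_algHom_iff (IsScalarTower.toAlgHom ℤ ℚ Qb) (algebraMap ℚ Qb).injective).1 h2
      obtain ⟨z, hz⟩ := IsIntegrallyClosed.isIntegral_iff.1 h3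
      have h4 : (z : ℚ) * (T.l j : ℚ) = 1 := by
        have : (z : ℚ) = (T.l j : ℚ)⁻¹ := hz
        rw [this, inv_mul_cancel₀]
        exact_mod_cast (T.hl j).ne_zero
      have h5 : z * (T.l j : ℤ) = 1 := by exact_mod_cast h4
      have h6 := Int.isUnit_iff_natAbs_eq.1 (IsUnit.of_mul_eq_one_right z h5)
      rw [Int.natAbs_natCast] at h6
      exact (T.hl j).one_lt.ne' h6
    obtain ⟨𝔓, h𝔓, hmem⟩ := exists_max_ideal_of_mem_nonunits hnu
    let k := O ⧸ 𝔓
    let _ : Field k := Ideal.Quotient.field 𝔓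
    let ψ : O →+* k := Ideal.Quotient.mk 𝔓
    have hcast : ((T.l j : ℕ) : k) = 0 := by
      have : ψ ((T.l j : ℕ) : O) = 0 := Ideal.Quotient.eq_zero_iff_mem.2 hmem
      rwa [map_natCast] at this
    have hchar : CharP k (T.l j) := by
      rw [← CharP.ringChar_of_prime_eq_zero (T.hl j) hcast]
      exact ringChar.charP k
    have hψ := T.congr j k ψ σ hσ y hnx (T.K_le (j + 1) hyK) hσy
    have hψβ : ψ ⟨β, hβint⟩ = 0 := by
      have h1 : (⟨β, hβint⟩ : O) = ⟨σ y, hσy⟩ - ⟨y, hnx⟩ := rfl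
      rw [h1, map_sub, hψ, sub_self]
    have h2 : aeval (⟨β, hβint⟩ : O) (minpoly ℤ β) = 0 := by
      apply Subtype.ext
      have h3 := Polynomial.aeval_algebraMap_apply Qb (⟨β, hβint⟩ : O) (minpoly ℤ β)
      have h4 : aeval (algebraMap O Qb ⟨β, hβint⟩) (minpoly ℤ β) = 0 := minpoly.aeval ℤ β
      rw [h4] at h3
      exact h3.symm
    have h5 : eval₂ (Int.castRingHom k) 0 (minpoly ℤ β) = 0 := by
      have h6 := congrArg ψ h2
      rw [aeval_def, hom_eval₂, map_zero, hψβ] at h6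
      rw [← h6]
      congr 1
    rw [eval₂_at_zero, eq_intCast] at h5
    exact (CharP.intCast_eq_zero_iff k (T.l j) _).1 h5
  have h7 := Int.le_of_dvd (abs_pos.2 hc0) ((dvd_abs _ _).2 hdvd)
  have h8 : ((T.l j : ℤ) : ℝ) ≤ ((|(minpoly ℤ β).coeff 0| : ℤ) : ℝ) := by exact_mod_cast h7
  rw [Int.cast_abs] at h8
  exact_mod_cast h8

end Data

end Pool.Agent.TH922.NL
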