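import Mathlib

set_option autoImplicit false

/-!
# A root of unity and its `p`-th power are conjugate over an unramified local base
-/

namespace Pool.Agent.TH922.NL

open Polynomial

theorem minpoly_pow_eq {O L Ω k : Type*} [CommRing O] [IsDomain O] [IsIntegrallyClosed O]
    [Field L] [Algebra O L] [IsFractionRing O L] [Field Ω] [Algebra L Ω] [Algebra O Ω]
    [IsScalarTower O L Ω] [Field k] (p : ℕ) [Fact p.Prime] [CharP k p] (π : O →+* k)
    (hπ : ∀ a, π a ^ p = π a) (n : ℕ) (hn : (n : k) ≠ 0) (z : Ω) (hz : z ^ n = 1) :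
    minpoly L (z ^ p) = minpoly L z := by
  have hn0 : 0 < n := Nat.pos_of_ne_zero (by rintro rfl; exact hn (by simp))
  have hp : p.Prime := Fact.out
  have hint : ∀ t : Ω, t ^ n = 1 → IsIntegral O t := by
    intro t ht
    refine ⟨X ^ n - C 1, monic_X_pow_sub_C 1 hn0.ne', ?_⟩
    simp [ht]
  have hzp : (z ^ p) ^ n = 1 := by rw [← pow_mul, mul_comm, pow_mul, hz, one_pow]
  have hi1 := hint z hz
  have hi2 := hint (z ^ p) hzp
  have : FaithfulSMul O Ω := by
    rw [faithfulSMul_iff_algebraMap_injective, IsScalarTower.algebraMap_eq O L Ω]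
    exact (algebraMap L Ω).injective.comp (IsFractionRing.injective O L)
  rw [minpoly.isIntegrallyClosed_eq_field_fractions' L hi1,
    minpoly.isIntegrallyClosed_eq_field_fractions' L hi2]
  congr 1
  set g := minpoly O z with hg
  set h := minpoly O (z ^ p) with hh
  by_contra hne
  have hgm : g.Monic := minpoly.monic hi1
  have hhm : h.Monic := minpoly.monic hi2
  have hgp : Prime g := minpoly.prime_of_isIntegrallyClosed hi1
  have hhp : Prime h := minpoly.prime_of_isIntegrallyClosed hi2
  have hroot : ∀ t : Ω, t ^ n = 1 → aeval t (X ^ n - 1 : O[X]) = 0 := by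
    intro t ht
    simp [ht]
  have hgd : g ∣ X ^ n - 1 := minpoly.isIntegrallyClosed_dvd hi1 (hroot z hz)
  have hhd : h ∣ X ^ n - 1 := minpoly.isIntegrallyClosed_dvd hi2 (hroot _ hzp)
  obtain ⟨r, hr⟩ := hgd
  have hprod : g * h ∣ X ^ n - 1 := by
    rw [hr] at hhd ⊢
    rcases hhp.dvd_or_dvd hhd with h1 | h1
    · exfalso
      apply hne
      refine eq_of_monic_of_associated hhm hgm ?_
      exact associated_of_dvd_dvd h1 (hhp.irreducible.dvd_symm hgp.irreducible h1)
    · exact mul_dvd_mul_left g h1
  have hexp : g ∣ expand O p h := by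
    apply minpoly.isIntegrallyClosed_dvd hi1
    rw [expand_aeval]
    exact minpoly.aeval O (z ^ p)
  have hmap : (h.map π) ^ p = (expand O p h).map π := by
    rw [map_expand]
    have h1 := Polynomial.map_frobenius_expand (R := k) p (h.map π)
    rw [← h1]
    rw [Polynomial.map_expand, Polynomial.map_map]
    congr 1
    ext i
    rw [coeff_map, coeff_map, RingHom.comp_apply]
    exact hπ _
  have hsep : (X ^ n - 1 : k[X]).Separable := by
    have := separable_X_pow_sub_C (1 : k) hn one_ne_zero
    rwa [map_one] at this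
  have hsq : Squarefree (X ^ n - 1 : k[X]) := hsep.squarefree
  have hprod' : g.map π * h.map π ∣ X ^ n - 1 := by
    have := Polynomial.map_dvd π hprod
    simpa using this
  have hgh : g.map π ∣ (h.map π) ^ p := by
    rw [hmap]
    exact Polynomial.map_dvd π hexp
  have hgsq : Squarefree (g.map π) := hsq.squarefree_of_dvd (dvd_of_mul_right_dvd hprod')
  have hgh' : g.map π ∣ h.map π := hgsq.isRadical _ _ hgh
  have h2 : g.map π * g.map π ∣ X ^ n - 1 := (mul_dvd_mul_left _ hgh').trans hprod'
  have hunit := hsq _ h2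
  have hdeg := natDegree_eq_zero_of_isUnit hunit
  rw [hgm.natDegree_map] at hdeg
  exact (minpoly.natDegree_pos hi1).ne' hdeg

end Pool.Agent.TH922.NL
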