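import Mathlib
import Pool.Agent.TH922.NL.Tower
import Pool.Agent.TH922.NL.Frob

set_option autoImplicit false

/-!
# Infinite local degree at the odd primes
-/

namespace Pool.Agent.TH922.NL

open Module IntermediateField IsDedekindDomain NumberField

/-- the rational numbers inside the algebraic numbers -/
noncomputable abbrev Q0 : IntermediateField ℚ Qb := ⊥

instance : NumberField Q0 where
  to_charZero := inferInstance
  to_finiteDimensional := inferInstance

section residue

variable (v : HeightOneSpectrum (𝓞 Q0))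

lemma exists_int (r : 𝓞 Q0) : ∃ n : ℤ, r = (n : 𝓞 Q0) := by
  obtain ⟨q, hq⟩ := IntermediateField.mem_bot.1 (r : Q0).2
  have h1 : IsIntegral ℤ (algebraMap ℚ Qb q) := by
    rw [hq]
    exact (RingOfIntegers.isIntegral_coe r).map (algebraMap Q0 Qb).toIntAlgHom
  have h2 : IsIntegral ℤ q :=
    (isIntegral_algHom_iff (IsScalarTower.toAlgHom ℤ ℚ Qb) (algebraMap ℚ Qb).injective).1 h1
  obtain ⟨n, hn⟩ := IsIntegrallyClosed.isIntegral_iff.1 h2
  refine ⟨n, ?_⟩
  apply RingOfIntegers.ext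
  apply Subtype.ext
  rw [← hq, ← hn]
  simp

/-- the residue field of the completion -/
abbrev kv : Type := IsLocalRing.ResidueField (v.adicCompletionIntegers Q0)

/-- every element of the local ring is congruent to an integer -/
lemma exists_int_congr (a : v.adicCompletionIntegers Q0) :
    ∃ n : ℤ, IsLocalRing.residue (v.adicCompletionIntegers Q0) a = (n : kv v) := by
  -- approximate by an element of the field
  have hopen : IsOpen {y : v.adicCompletion Q0 | Valued.v ((a : v.adicCompletion Q0) - y) < 1} := by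
    have h1 : IsOpen {y : v.adicCompletion Q0 | Valued.v y < 1} := by
      have := Valued.isOpen_ball (R := v.adicCompletion Q0) 1
      simpa using this
    exact h1.preimage (continuous_const.sub continuous_id)
  obtain ⟨y, hy⟩ := (HeightOneSpectrum.denseRange_algebraMap (K := Q0) v).exists_mem_open
    hopen ⟨(a : v.adicCompletion Q0), by simp⟩
  have hy' : Valued.v ((a : v.adicCompletion Q0) - algebraMap Q0 (v.adicCompletion Q0) y) < 1 := hy
  have hyv : v.valuation Q0 y ≤ 1 := by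
    rw [← HeightOneSpectrum.valuedAdicCompletion_eq_valuation']
    have h1 : ((y : Q0) : v.adicCompletion Q0) = (a : v.adicCompletion Q0) -
        ((a : v.adicCompletion Q0) - algebraMap Q0 (v.adicCompletion Q0) y) := by
      rw [sub_sub_cancel]; rfl
    rw [h1]
    refine (Valuation.map_sub _ _ _).trans (max_le ?_ hy'.le)
    exact (HeightOneSpectrum.mem_adicCompletionIntegers (𝓞 Q0) Q0 v).1 a.2
  obtain ⟨r, hr⟩ := v.exists_valuation_sub_lt_of_integer hyv 1
  obtain ⟨n, rfl⟩ := exists_int r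
  refine ⟨n, ?_⟩
  have h2 : Valued.v ((a : v.adicCompletion Q0) - (n : v.adicCompletion Q0)) < 1 := by
    have h3 : (a : v.adicCompletion Q0) - (n : v.adicCompletion Q0) =
      ((a : v.adicCompletion Q0) - algebraMap Q0 (v.adicCompletion Q0) y) -
        algebraMap Q0 (v.adicCompletion Q0) (algebraMap (𝓞 Q0) Q0 n - y) := by
      rw [map_sub, map_intCast, map_intCast]
      ring
    rw [h3]
    refine lt_of_le_of_lt (Valuation.map_sub _ _ _) (max_lt hy' ?_)
    have h4 := HeightOneSpectrum.valuedAdicCompletion_eq_valuation' (v := v)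
      (algebraMap (𝓞 Q0) Q0 n - y)
    have h5 : Valued.v (algebraMap Q0 (v.adicCompletion Q0) (algebraMap (𝓞 Q0) Q0 n - y)) =
      v.valuation Q0 (algebraMap (𝓞 Q0) Q0 n - y) := h4
    rw [h5]
    simpa using hr
  have h6 : a - (n : v.adicCompletionIntegers Q0) ∈
      IsLocalRing.maximalIdeal (v.adicCompletionIntegers Q0) := by
    rw [IsLocalRing.mem_maximalIdeal, mem_nonunits_iff,
      HeightOneSpectrum.adicCompletionIntegers.isUnit_iff_valued_eq_one]
    intro h7
    have h8 : ((a - (n : v.adicCompletionIntegers Q0) : v.adicCompletionIntegers Q0) :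
      v.adicCompletion Q0) = (a : v.adicCompletion Q0) - (n : v.adicCompletion Q0) := by
      push_cast
      rfl
    rw [h8] at h7
    exact h2.ne h7
  rw [← IsLocalRing.residue_eq_zero_iff, map_sub, map_intCast, sub_eq_zero] at h6
  exact h6

lemma natCast_kv (p : ℕ) (hpv : (p : 𝓞 Q0) ∈ v.asIdeal) : ((p : ℕ) : kv v) = 0 := by
  have h1 : ((p : ℕ) : v.adicCompletionIntegers Q0) ∈
      IsLocalRing.maximalIdeal (v.adicCompletionIntegers Q0) := by
    rw [IsLocalRing.mem_maximalIdeal, mem_nonunits_iff,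
      HeightOneSpectrum.adicCompletionIntegers.isUnit_iff_valued_eq_one]
    intro h7
    have h2 := HeightOneSpectrum.valuedAdicCompletion_eq_valuation' (v := v)
      (algebraMap (𝓞 Q0) Q0 (p : 𝓞 Q0))
    have h3 : (((p : ℕ) : v.adicCompletionIntegers Q0) : v.adicCompletion Q0) =
        ((algebraMap (𝓞 Q0) Q0 (p : 𝓞 Q0) : Q0) : v.adicCompletion Q0) := by
      rw [map_natCast]
      push_cast
      rw [show (((p : ℕ) : Q0) : v.adicCompletion Q0) =
        algebraMap Q0 (v.adicCompletion Q0) (p : Q0) from rfl, map_natCast]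
    rw [h3, h2] at h7
    exact ((HeightOneSpectrum.valuation_lt_one_iff_mem v (K := Q0) (p : 𝓞 Q0)).2 hpv).ne h7
  rw [← map_natCast (IsLocalRing.residue (v.adicCompletionIntegers Q0))]
  rw [IsLocalRing.residue_eq_zero_iff]
  exact h1

lemma charP_kv (p : ℕ) (hp : p.Prime) (hpv : (p : 𝓞 Q0) ∈ v.asIdeal) : CharP (kv v) p := by
  rw [← CharP.ringChar_of_prime_eq_zero hp (natCast_kv v p hpv)]
  exact ringChar.charP _

lemma residue_pow (p : ℕ) (hp : p.Prime) (hpv : (p : 𝓞 Q0) ∈ v.asIdeal)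
    (a : v.adicCompletionIntegers Q0) :
    IsLocalRing.residue (v.adicCompletionIntegers Q0) a ^ p =
      IsLocalRing.residue (v.adicCompletionIntegers Q0) a := by
  have := charP_kv v p hp hpv
  have : Fact p.Prime := ⟨hp⟩
  obtain ⟨n, hn⟩ := exists_int_congr v a
  rw [hn]
  have h1 : ((n : ZMod p)) ^ p = (n : ZMod p) := ZMod.pow_card _
  have h2 := congrArg (ZMod.castHom (dvd_refl p) (kv v)) h1
  rw [map_pow, map_intCast] at h2
  exact h2

/-- the Frobenius automorphism -/
lemma exists_frob (p : ℕ) (hp : p.Prime) (hpv : (p : 𝓞 Q0) ∈ v.asIdeal) (l : ℕ) (hl : l.Prime)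
    (hlp : l ≠ p) (z : AlgebraicClosure (v.adicCompletion Q0)) (hz : z ^ l = 1) :
    ∃ σ : AlgebraicClosure (v.adicCompletion Q0) ≃ₐ[v.adicCompletion Q0]
      AlgebraicClosure (v.adicCompletion Q0), σ z = z ^ p := by
  have := charP_kv v p hp hpv
  have : Fact p.Prime := ⟨hp⟩
  have hlk : (l : kv v) ≠ 0 := by
    intro h
    rw [CharP.cast_eq_zero_iff (kv v) p] at h
    exact hlp ((Nat.prime_dvd_prime_iff_eq hp hl).1 h).symm
  have h1 := minpoly_pow_eq (L := v.adicCompletion Q0) p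
    (IsLocalRing.residue (v.adicCompletionIntegers Q0)) (residue_pow v p hp hpv) l hlk z hz
  have h2 : IsConjRoot (v.adicCompletion Q0) (z ^ p) z := by
    rw [isConjRoot_def]
    exact h1
  rw [isConjRoot_iff_exists_algEquiv] at h2
  obtain ⟨σ, hσ⟩ := h2
  exact ⟨σ, hσ⟩

end residue

lemma exists_restrict {k A Ω : Type*} [Field k] [Field A] [Field Ω] [Algebra k A] [Algebra k Ω]
    [Normal k A] (ι : A →ₐ[k] Ω) (τ : Ω ≃ₐ[k] Ω) : ∃ ρ : A ≃ₐ[k] A, ∀ x, ι (ρ x) = τ (ι x) := by
  let _ : Algebra A Ω := ι.toRingHom.toAlgebra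
  have : IsScalarTower k A Ω := IsScalarTower.of_algebraMap_eq fun x => (ι.commutes x).symm
  exact ⟨τ.restrictNormal A, fun x => τ.restrictNormal_commutes A x⟩

lemma modEq_of_pow_eq {A : Type*} [CommRing A] [IsDomain A] (z : A) (l : ℕ) (hl : 0 < l)
    (hz : IsPrimitiveRoot z l) (a b : ℕ) (h : z ^ a = z ^ b) : a ≡ b [MOD l] := by
  have hpow : ∀ c : ℕ, z ^ c = z ^ (c % l) := by
    intro c
    conv_lhs => rw [← Nat.mod_add_div c l, pow_add, pow_mul, hz.pow_eq_one, one_pow, mul_one]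
  rw [hpow a, hpow b] at h
  exact hz.pow_inj (Nat.mod_lt _ hl) (Nat.mod_lt _ hl) h

/-- the local degree at an odd prime is infinite -/
theorem local_infinite (T : Data) (v : HeightOneSpectrum (𝓞 Q0)) (p : ℕ) (hp : p.Prime)
    (hp2 : p ≠ 2) (hpv : (p : 𝓞 Q0) ∈ v.asIdeal)
    (ι : Qb →ₐ[Q0] AlgebraicClosure (v.adicCompletion Q0)) (F : Set Qb)
    (hF : ∀ j, ∀ x ∈ T.K j, x ∈ F) :
    ¬ FiniteDimensional (v.adicCompletion Q0)
      (IntermediateField.adjoin (v.adicCompletion Q0) (ι '' F)) := by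
  intro hfd
  set E := IntermediateField.adjoin (v.adicCompletion Q0) (ι '' F) with hE
  set n := finrank (v.adicCompletion Q0) E with hn
  set j := Nat.pair p n with hj
  have hppj : pp j = p := pp_pair p n hp hp2
  have hjn : n ≤ j := Nat.right_le_pair p n
  have hlp : T.l j ≠ p := by
    intro h
    apply T.nsq j
    rw [hppj, h]
    refine ⟨0, ?_⟩
    rw [mul_zero, ZMod.natCast_self]
  have hz : (ι (T.ζ j)) ^ (T.l j) = 1 := by
    rw [← map_pow, (T.hζ j).pow_eq_one, map_one]
  obtain ⟨σ, hσ⟩ := exists_frob v p hp hpv (T.l j) (T.hl j) hlp (ι (T.ζ j)) hz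
  have hσm : ∀ m : ℕ, (σ ^ m) (ι (T.ζ j)) = ι (T.ζ j) ^ (p ^ m) := by
    intro m
    induction m with
    | zero => simp
    | succ m ih => rw [pow_succ, AlgEquiv.mul_apply, hσ, map_pow, ih, ← pow_mul, pow_succ]
  -- a power of the Frobenius fixing `F` has exponent divisible by `2 ^ j`
  have key : ∀ m : ℕ, (∀ x ∈ F, (σ ^ m) (ι x) = ι x) → 2 ^ j ∣ m := by
    intro m hm
    obtain ⟨ρ', hρ'⟩ := exists_restrict ι ((σ ^ m).restrictScalars Q0)
    let ρ : Qb ≃ₐ[ℚ] Qb := ρ'.restrictScalars ℚ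
    have hρ : ∀ x, ι (ρ x) = (σ ^ m) (ι x) := hρ'
    have hρS : ρ ∈ T.S (j + 1) := by
      apply T.fixing_K
      intro x hx
      apply ι.injective
      show ι (ρ x) = ι x
      rw [hρ]
      exact hm x (hF _ x hx)
    obtain ⟨u, hu⟩ := (T.mem_S (j + 1) ρ).1 hρS j (Nat.lt_succ_self j)
    have hρζ : ρ (T.ζ j) = T.ζ j ^ (p ^ m) := by
      apply ι.injective
      show ι (ρ (T.ζ j)) = ι (T.ζ j ^ (p ^ m))
      rw [hρ, hσm, map_pow]
    have h1 : T.ζ j ^ ((T.χ j ρ : ZMod (T.l j))).val = T.ζ j ^ (p ^ m) := by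
      rw [T.χ_spec, hρζ]
    replace h1 := modEq_of_pow_eq (T.ζ j) (T.l j) (T.hl j).pos (T.hζ j) _ _ h1
    have h2 : (T.χ j ρ : ZMod (T.l j)) = (p : ZMod (T.l j)) ^ m := by
      have h3 := (ZMod.natCast_eq_natCast_iff _ _ _).2 h1
      rw [ZMod.natCast_val, ZMod.cast_id] at h3
      rw [h3]
      push_cast
      rfl
    have h4 : ((p : ℕ) : ZMod (T.l j)) ^ m = (u : ZMod (T.l j)) ^ (2 ^ j) := by
      rw [← h2, ← hu]
      push_cast
      rfl
    refine dvd_of_pow_eq (T.l j) (T.hl j) j (T.dvd j) (p : ZMod (T.l j)) ?_ m u u.ne_zero h4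
    rw [← hppj]
    exact T.nsq j
  -- distinct powers of the Frobenius give distinct embeddings
  let f : Fin (2 ^ j) → (E →ₐ[v.adicCompletion Q0] AlgebraicClosure (v.adicCompletion Q0)) :=
    fun m => ((σ ^ (m : ℕ) : _ ≃ₐ[v.adicCompletion Q0] _) : _ →ₐ[v.adicCompletion Q0] _).comp E.val
  have hinj : ∀ a b : Fin (2 ^ j), (a : ℕ) ≤ b → f a = f b → a = b := by
    intro a b hab h
    have h1 : ∀ x ∈ F, (σ ^ ((b : ℕ) - a)) (ι x) = ι x := by
      intro x hx
      have hxE : ι x ∈ E := IntermediateField.subset_adjoin _ _ ⟨x, hx, rfl⟩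
      have h2 : (σ ^ (a : ℕ)) (ι x) = (σ ^ (b : ℕ)) (ι x) := DFunLike.congr_fun h ⟨ι x, hxE⟩
      apply (σ ^ (a : ℕ)).injective
      rw [← AlgEquiv.mul_apply, ← pow_add, Nat.add_sub_cancel' hab]
      exact h2.symm
    have h3 := key _ h1
    have h4 : (b : ℕ) - a < 2 ^ j := lt_of_le_of_lt (Nat.sub_le _ _) b.2
    have h5 := Nat.eq_zero_of_dvd_of_lt h3 h4
    apply Fin.ext
    omega
  have hinj' : Function.Injective f := by
    intro a b h
    rcases le_total (a : ℕ) b with hab | hab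
    · exact hinj a b hab h
    · exact (hinj b a hab h.symm).symm
  have hcard : 2 ^ j ≤ n := by
    have h1 : Nat.card (E →ₐ[v.adicCompletion Q0] AlgebraicClosure (v.adicCompletion Q0)) ≤ n :=
      card_algHom_le_finrank _ _ _
    have h2 : Nat.card (Fin (2 ^ j)) ≤
        Nat.card (E →ₐ[v.adicCompletion Q0] AlgebraicClosure (v.adicCompletion Q0)) :=
      Nat.card_le_card_of_injective f hinj'
    rw [Nat.card_eq_fintype_card, Fintype.card_fin] at h2
    exact h2.trans h1
  have : j < 2 ^ j := Nat.lt_two_pow_self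
  omega

end Pool.Agent.TH922.NL
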