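import Mathlib
import Pool.Agent.TH922.NL.Ht
import Pool.Agent.TH922.NL.Local
import Pool.Agent.H58W.HtLimit
import Pool.Agent.H58W.HtNorth

set_option autoImplicit false

/-!
# An abelian extension of `ℚ` with the Northcott property and infinite local degree at every odd
prime
-/

namespace Pool.Agent.TH922.NL

open Module IntermediateField IsDedekindDomain NumberField
open Pool.Agent.Helper259.AbsHt
open Pool.Agent.H58W (hM lift small_limit_bound northcott)

/-- the bound for the height of the new elements -/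
noncomputable def bnd (j : ℕ) : ℝ := ((j : ℝ) + 1) * (Data.D (j + 1) + 1)

/-- the bound for the primes -/
noncomputable def cbd (j : ℕ) : ℕ :=
  ⌈(2 * Real.exp (max (bnd j) 0 * Data.D (j + 1)) ^ 2) ^ Data.D (j + 1)⌉₊

theorem exists_data : ∃ T : Data, ∀ j, cbd j < T.l j := by
  obtain ⟨l, h1, h2, h3, h4, h5⟩ := exists_seq cbd
  have hζ : ∀ j, ∃ ζ : Qb, IsPrimitiveRoot ζ (l j) := fun j => by
    have : NeZero ((l j : ℕ) : Qb) := ⟨by exact_mod_cast (h1 j).ne_zero⟩
    exact (HasEnoughRootsOfUnity.exists_primitiveRoot Qb (l j))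
  choose ζ hζ using hζ
  exact ⟨⟨l, h1, h3, h4, h5, ζ, hζ⟩, h2⟩

lemma mem_K_of_height (T : Data) (hT : ∀ j, cbd j < T.l j) (m : ℕ) (α : Qb) (hα : α ∈ T.F)
    (h : ∀ D : ℕ, (minpoly ℚ α).natDegree ≤ D → absLogHeight ![1, α] ≤ m * D + m) :
    α ∈ T.K m := by
  classical
  have hex := (T.mem_F α).1 hα
  set i := Nat.find hex with hi
  have hi1 : α ∈ T.K i := Nat.find_spec hex
  by_cases him : i ≤ m
  · exact T.K_mono him hi1
  exfalso
  obtain ⟨j, hj⟩ : ∃ j, i = j + 1 := ⟨i - 1, by omega⟩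
  have hjn : α ∉ T.K j := Nat.find_min hex (by omega)
  rw [hj] at hi1
  have h1 : absLogHeight ![1, α] ≤ bnd j := by
    refine (h _ (T.degree_le (j + 1) α hi1)).trans ?_
    unfold bnd
    have h2 : (m : ℝ) ≤ (j : ℝ) + 1 := by
      have : m ≤ j + 1 := by omega
      exact_mod_cast this
    have h3 : (0 : ℝ) ≤ Data.D (j + 1) := Nat.cast_nonneg _
    nlinarith
  have h4 := T.l_le j α hi1 hjn (bnd j) h1
  have h5 : (T.l j : ℝ) ≤ cbd j := h4.trans (Nat.le_ceil _)
  have h6 : T.l j ≤ cbd j := by exact_mod_cast h5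
  exact absurd (hT j) (not_lt.2 h6)

open Filter Topology in
theorem usb (T : Data) (hT : ∀ j, cbd j < T.l j) (f : RatFunc Qb)
    (hf : 2 ≤ max f.num.natDegree f.denom.natDegree) :
    Set.Finite {α : Qb | α ∈ T.F ∧ ∃ L : ℝ,
      Tendsto (fun n : ℕ => hM (((lift f.num f.denom (max f.num.natDegree f.denom.natDegree))^[n]
        (α, 1)).1 / ((lift f.num f.denom (max f.num.natDegree f.denom.natDegree))^[n] (α, 1)).2) /
          ((max f.num.natDegree f.denom.natDegree : ℕ) : ℝ) ^ n) atTop (𝓝 L) ∧ L < 1} := by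
  obtain ⟨m, hm⟩ := small_limit_bound f.num f.denom _ rfl hf (RatFunc.isCoprime_num_denom f)
  refine (northcott (Data.D m) (m * Data.D m + m)).subset ?_
  rintro α ⟨hα, L, hL, hL1⟩
  have h1 : α ∈ T.K m := mem_K_of_height T hT m α hα fun D hD => hm D α hD L hL1 hL
  exact ⟨T.degree_le m α h1, hm _ α (T.degree_le m α h1) L hL1 hL⟩

/-- the union of the tower as an extension of `Q0` -/
noncomputable def F0 (T : Data) : IntermediateField Q0 Qb :=
  IntermediateField.extendScalars (bot_le : (⊥ : IntermediateField ℚ Qb) ≤ T.F)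

lemma mem_F0 (T : Data) (x : Qb) : x ∈ F0 T ↔ x ∈ T.F := Iff.rfl

lemma isGalois_F0 (T : Data) : IsGalois Q0 (F0 T) := by
  have h1 : Normal Q0 (F0 T) := by
    rw [IntermediateField.normal_iff_forall_map_le']
    intro σ
    rintro _ ⟨x, hx, rfl⟩
    obtain ⟨i, hi⟩ := (T.mem_F x).1 hx
    exact (T.mem_F _).2 ⟨i, T.map_mem_K i x hi (σ.restrictScalars ℚ)⟩
  exact ⟨⟩

lemma exists_prime_mem (v : HeightOneSpectrum (𝓞 Q0)) :
    ∃ p : ℕ, p.Prime ∧ (p : 𝓞 Q0) ∈ v.asIdeal := by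
  have hne : (v.asIdeal : Ideal (𝓞 Q0)) ≠ ⊥ := v.ne_bot
  have : Finite (𝓞 Q0 ⧸ v.asIdeal) := Ideal.finiteQuotientOfFreeOfNeBot v.asIdeal hne
  have : IsDomain (𝓞 Q0 ⧸ v.asIdeal) := Ideal.Quotient.isDomain _
  obtain ⟨p, hp⟩ := CharP.exists (𝓞 Q0 ⧸ v.asIdeal)
  have hpp : p.Prime ∨ p = 0 := CharP.char_is_prime_or_zero (𝓞 Q0 ⧸ v.asIdeal) p
  rcases hpp with h | h
  · refine ⟨p, h, ?_⟩
    rw [← Ideal.Quotient.eq_zero_iff_mem, map_natCast]
    exact CharP.cast_eq_zero (𝓞 Q0 ⧸ v.asIdeal) p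
  · subst h
    have := CharP.charP_to_charZero (𝓞 Q0 ⧸ v.asIdeal)
    exact absurd (inferInstance : Finite (𝓞 Q0 ⧸ v.asIdeal)) (Infinite.of_injective
      (fun n : ℕ => (n : 𝓞 Q0 ⧸ v.asIdeal)) Nat.cast_injective).not_finite

lemma finite_two : {v : HeightOneSpectrum (𝓞 Q0) | ((2 : ℕ) : 𝓞 Q0) ∈ v.asIdeal}.Finite := by
  have h2 : Ideal.span {((2 : ℕ) : 𝓞 Q0)} ≠ 0 := by
    rw [Ne, Ideal.zero_eq_bot, Ideal.span_singleton_eq_bot]
    exact Nat.cast_ne_zero.2 two_ne_zero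
  refine (Ideal.finite_factors h2).subset ?_
  intro v hv
  rw [Set.mem_ofPred_eq, Ideal.dvd_iff_le, Ideal.span_singleton_le_iff_mem]
  exact hv

theorem main :
    ∃ F : IntermediateField Q0 Qb, IsGalois Q0 F ∧
      (∀ f : RatFunc Qb, 2 ≤ max f.num.natDegree f.denom.natDegree →
        Set.Finite {α : Qb | α ∈ F ∧ ∃ L : ℝ,
          Filter.Tendsto (fun n : ℕ =>
            hM (((lift f.num f.denom (max f.num.natDegree f.denom.natDegree))^[n] (α, 1)).1 /
              ((lift f.num f.denom (max f.num.natDegree f.denom.natDegree))^[n] (α, 1)).2) /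
              ((max f.num.natDegree f.denom.natDegree : ℕ) : ℝ) ^ n)
            Filter.atTop (nhds L) ∧ L < 1}) ∧
      Set.Finite {v : HeightOneSpectrum (𝓞 Q0) |
        ∀ ι : Qb →ₐ[Q0] AlgebraicClosure (v.adicCompletion Q0),
          FiniteDimensional (v.adicCompletion Q0)
            (IntermediateField.adjoin (v.adicCompletion Q0) (ι '' (F : Set Qb)))} := by
  obtain ⟨T, hT⟩ := exists_data
  refine ⟨F0 T, isGalois_F0 T, fun f hf => usb T hT f hf, finite_two.subset ?_⟩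
  intro v hv
  obtain ⟨p, hp, hpv⟩ := exists_prime_mem v
  by_cases hp2 : p = 2
  · subst hp2
    exact hpv
  · exfalso
    have : Algebra.IsAlgebraic Q0 Qb := inferInstance
    let ι : Qb →ₐ[Q0] AlgebraicClosure (v.adicCompletion Q0) := IsAlgClosed.lift
    exact local_infinite T v p hp hp2 hpv ι (F0 T : Set Qb)
      (fun j x hx => (T.mem_F x).2 ⟨j, hx⟩) (hv ι)

end Pool.Agent.TH922.NL
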